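import Pool.Agent.H61.AZ.Split

/-!
# Reduction of the analytic zero divisor conjecture to freely indecomposable groups

If some torsion-free group contradicts the analytic zero divisor conjecture, then it contains a
finitely generated group which contradicts the conjecture, is not a free product of two nontrivial
groups, and acts trivially on every totally ordered set (so that it has no nontrivial left-orderable
quotient; in particular its abelianization is finite).

The proof uses the cutting argument for actions on trees with finite edge stabilisers (for the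
Bass-Serre tree of a free product), the level inequality for order preserving actions, and the
following part of Grushko's theorem, which is proved by counting `ℓ²`-derivations: a free product of
`n` groups which contain elements of infinite order is not generated by fewer than `n` elements.
-/

set_option autoImplicit false
set_option linter.unusedSectionVars false

universe u

namespace Pool.Agent.Results.MP_0f25e6_al.Indecomposable

/-- `α * f` is nonzero for every nonzero square-summable `f`, where
`(α * f)(g) = ∑ α(k) f(k⁻¹ g)`. -/
def Regular {G : Type u} [Group G] (α : G →₀ ℂ) : Prop :=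
  ∀ f : G → ℂ, Memℓp f 2 → f ≠ 0 → ∃ g : G, ∑ k ∈ α.support, α k * f (k⁻¹ * g) ≠ 0

/-- All square-summable `f` with `α * f = 0`. -/
def kernel {G : Type u} [Group G] (α : G →₀ ℂ) : Set (lp (fun _ : G => ℂ) 2) :=
  {f | ∀ g : G, ∑ k ∈ α.support, α k * f (k⁻¹ * g) = 0}

open Classical in
/-- The von Neumann dimension of the kernel of left convolution by `α`: one minus the square of the
distance from the basis vector at the identity of `G` to the kernel (this is the squared length of
the projection of that vector to the kernel). -/
noncomputable def kerDim {G : Type u} [Group G] (α : G →₀ ℂ) : ℝ :=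
  1 - Metric.infDist (lp.single 2 (1 : G) (1 : ℂ)) (kernel α) ^ 2

/-- The statement of Q1 for the group `G`: all nonzero elements of the group algebra are regular. -/
def ZeroDivisorProperty (G : Type u) [Group G] : Prop := ∀ α : G →₀ ℂ, α ≠ 0 → Regular α

/-- Only the identity has finite order. -/
def TorsionFree (G : Type u) [Group G] : Prop := ∀ g : G, ∀ n : ℕ, 0 < n → g ^ n = 1 → g = 1

/-- Whenever `B` is the (internal) free product of two subgroups, one of them is trivial. -/
def FreelyIndecomposable (B : Type u) [Group B] : Prop :=
  ∀ S : Bool → Subgroup B,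
    Function.Bijective
      (Monoid.CoprodI.lift (fun i => (S i).subtype) : Monoid.CoprodI (fun i => S i) →* B) →
    S true = ⊥ ∨ S false = ⊥

/-- Every action of `B` by order preserving maps on a totally ordered set is trivial. -/
def OrderTrivial (B : Type u) [Group B] : Prop :=
  ∀ (Ω : Type u) [LinearOrder Ω] [MulAction B Ω],
    (∀ (g : B) (x y : Ω), x ≤ y → g • x ≤ g • y) → ∀ (g : B) (ω : Ω), g • ω = ω

open Pool.Agent.W649.ZL Pool.Agent.H61.AZ

theorem kerDim_eq {G : Type u} [Group G] (α : G →₀ ℂ) : kerDim α = vd (kr α) :=
  kerDim_eq_vd α

theorem regular_iff_kerDim {G : Type u} [Group G] (α : G →₀ ℂ) : Regular α ↔ kerDim α = 0 := by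
  rw [kerDim_eq]
  constructor
  · intro h
    exact vd_ker_of_injective _ ((regular_iff α).1 h)
  · intro h
    exact (regular_iff α).2 (injective_of_vd_eq_zero _ (cop_eqv α) (le_of_eq h))

theorem kerDim_nonneg {G : Type u} [Group G] (α : G →₀ ℂ) : 0 ≤ kerDim α := by
  rw [kerDim_eq]; exact vd_nonneg _

theorem regular_of_le {G H : Type u} [Group G] [Group H] {α : G →₀ ℂ} {β : H →₀ ℂ}
    (h : kerDim α ≤ kerDim β) (hβ : Regular β) : Regular α := by
  rw [regular_iff_kerDim] at hβ ⊢
  rw [hβ] at h
  exact le_antisymm h (kerDim_nonneg α)

/-- **Reduction to freely indecomposable groups which act trivially on totally ordered sets.**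

1. Let `G` be a torsion-free group and let `α ≠ 0` be an element of its complex group algebra. There
are a finitely generated group `B` which embeds in `G`, is not the free product of two nontrivial
groups and acts trivially on all totally ordered sets, and an element `β ≠ 0` of the complex group
algebra of `B` such that the von Neumann dimension of the kernel of `α` on `ℓ²(G)` is at most that
of the kernel of `β` on `ℓ²(B)`; in particular `α` is regular if `β` is.

2. The statement of Q1 holds for all torsion-free groups if (and only if) it holds for the
torsion-free groups `B` which are finitely generated, freely indecomposable, and act trivially on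
all totally ordered sets.

3. The groups in 2 have no nontrivial homomorphism to a group with a total order that is invariant
under left multiplication. -/
theorem result :
    (∀ (G : Type u) [Group G], TorsionFree G → ∀ α : G →₀ ℂ, α ≠ 0 →
      ∃ (B : Type u) (_ : Group B) (f : B →* G), Function.Injective f ∧ Group.FG B ∧
        FreelyIndecomposable B ∧ OrderTrivial B ∧
        ∃ β : B →₀ ℂ, β ≠ 0 ∧ kerDim α ≤ kerDim β ∧ (Regular β → Regular α)) ∧
    ((∀ (G : Type u) [Group G], TorsionFree G → ZeroDivisorProperty G) ↔
      ∀ (B : Type u) [Group B], TorsionFree B → Group.FG B → FreelyIndecomposable B →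
        OrderTrivial B → ZeroDivisorProperty B) ∧
    (∀ (B : Type u) [Group B], OrderTrivial B → ∀ (Q : Type u) [Group Q] [LinearOrder Q]
      (ψ : B →* Q), (∀ g a b : Q, a ≤ b → g * a ≤ g * b) → ∀ b : B, ψ b = 1) := by
  have key : ∀ (G : Type u) [Group G], TorsionFree G → ∀ α : G →₀ ℂ, α ≠ 0 →
      ∃ (B : Type u) (_ : Group B) (f : B →* G), Function.Injective f ∧ Group.FG B ∧
        FreelyIndecomposable B ∧ OrderTrivial B ∧
        ∃ β : B →₀ ℂ, β ≠ 0 ∧ kerDim α ≤ kerDim β ∧ (Regular β → Regular α) := by
    intro G _ htf α hα
    obtain ⟨B, iB, f, h1, h2, h3, h4, β, h5, h6⟩ := reduction G htf α hα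
    refine ⟨B, iB, f, h1, h2, h3, h4, β, h5, ?_, ?_⟩
    · rw [kerDim_eq, kerDim_eq]; exact h6
    · intro hreg
      exact regular_of_le (by rw [kerDim_eq, kerDim_eq]; exact h6) hreg
  refine ⟨key, ⟨fun h B _ htf _ _ _ => h B htf, fun h G _ htf α hα => ?_⟩, ?_⟩
  · obtain ⟨B, iB, f, h1, h2, h3, h4, β, h5, h6, h7⟩ := key G htf α hα
    refine h7 (h B ?_ h2 h3 h4 β h5)
    exact TF.of_injective htf f h1
  · intro B _ hB Q _ _ ψ hQ b
    let _ : MulAction B Q := MulAction.compHom Q ψ
    have hact : ∀ (p : B) (q : Q), p • q = ψ p * q := fun p q => rfl
    have h1 := hB Q (fun g x y hxy => by rw [hact, hact]; exact hQ _ _ _ hxy) b 1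
    rwa [hact, mul_one] at h1

end Pool.Agent.Results.MP_0f25e6_al.Indecomposable
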