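import Pool.Agent.H61.AZ.Products

/-!
# Analytic zero divisors and actions on trees

For an element `α` of a complex group algebra `ℂ[G]` let `kerDim α` be the von Neumann dimension of
the space of all `f ∈ ℓ²(G)` with `α * f = 0`. Let `G` act on a tree with finite edge stabilisers.
Then the kernel of every nonzero element of `ℂ[G]` is at most as large as the kernel of some nonzero
element of the group algebra of a vertex stabiliser. In particular the groups which satisfy the
analytic zero divisor conjecture are closed under arbitrary free products.

Idea. Let `K` be the kernel of `α`, and let `η` be a nonzero element of `ℂ[G]` which, as a vector, is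
orthogonal to `K`; for example the adjoint of `α`. The kernel of `η` has at least the dimension of
`K`. If `f` is in the kernel of `η`, and if `Y` is the set of all group elements which move a fixed
vertex into a half tree, then `η * (1_Y f)` is again orthogonal to `K`, and it is supported near
the boundary of `Y`, which is finite. This gives a new element of `ℂ[G]` which is orthogonal to `K`
and whose support is contained in a smaller ball of the tree, unless `η * (1_Y f) = 0` for all `Y`
and all `f`; and then the kernel of `η` is closed under restriction to the cosets of a vertex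
stabiliser, so that it is not larger than the kernel of an element of its group algebra.
-/

set_option autoImplicit false
set_option linter.unusedSectionVars false

universe u v w x

namespace Pool.Agent.Results.MP_0f25e6_al.TreeActions

/-- `α * f` is nonzero for every nonzero square-summable `f`, where
`(α * f)(g) = ∑ α(k) f(k⁻¹ g)`. -/
def Regular {G : Type u} [Group G] (α : G →₀ ℂ) : Prop :=
  ∀ f : G → ℂ, Memℓp f 2 → f ≠ 0 → ∃ g : G, ∑ k ∈ α.support, α k * f (k⁻¹ * g) ≠ 0

/-- All square-summable `f` with `α * f = 0`. -/
def kernel {G : Type u} [Group G] (α : G →₀ ℂ) : Set (lp (fun _ : G => ℂ) 2) :=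
  {f | ∀ g : G, ∑ k ∈ α.support, α k * f (k⁻¹ * g) = 0}

open Classical in
/-- The von Neumann dimension of the kernel of left convolution by `α`: one minus the square of the
distance from the basis vector at the identity of `G` to the kernel (this is the squared length of
the projection of that vector to the kernel). -/
noncomputable def kerDim {G : Type u} [Group G] (α : G →₀ ℂ) : ℝ :=
  1 - Metric.infDist (lp.single 2 (1 : G) (1 : ℂ)) (kernel α) ^ 2

/-- The statement of Q1 for the group `G`: all nonzero elements of the group algebra are regular. -/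
def ZeroDivisorProperty (G : Type u) [Group G] : Prop := ∀ α : G →₀ ℂ, α ≠ 0 → Regular α

/-- `G` acts on the tree `T` by automorphisms and without inversions. -/
structure TreeAction (G : Type u) (V : Type v) [Group G] [MulAction G V] (T : SimpleGraph V) :
    Prop where
  isTree : T.IsTree
  adj : ∀ (g : G) (x y : V), T.Adj x y → T.Adj (g • x) (g • y)
  noInversion : ∀ (g : G) (x y : V), T.Adj x y → g • x = y → g • y ≠ x

/-- `G` acts by order preserving maps on the totally ordered set `Ω`. -/
def OrderAction (G : Type u) (Ω : Type w) [Group G] [LinearOrder Ω] [MulAction G Ω] : Prop :=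
  ∀ (g : G) (x y : Ω), x ≤ y → g • x ≤ g • y

/-- The order of the group `Q` is invariant under left multiplication. -/
def LeftInvariant (Q : Type u) [Group Q] [LinearOrder Q] : Prop :=
  ∀ g a b : Q, a ≤ b → g * a ≤ g * b

open Pool.Agent.W649.ZL Pool.Agent.H61.AZ

theorem kerDim_eq {G : Type u} [Group G] (α : G →₀ ℂ) : kerDim α = vd (kr α) :=
  kerDim_eq_vd α

theorem regular_iff_kerDim {G : Type u} [Group G] (α : G →₀ ℂ) : Regular α ↔ kerDim α = 0 := by
  rw [kerDim_eq]
  constructor
  · intro h
    exact vd_ker_of_injective _ ((regular_iff α).1 h)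
  · intro h
    exact (regular_iff α).2 (injective_of_vd_eq_zero _ (cop_eqv α) (le_of_eq h))

theorem kerDim_nonneg {G : Type u} [Group G] (α : G →₀ ℂ) : 0 ≤ kerDim α := by
  rw [kerDim_eq]; exact vd_nonneg _

theorem regular_of_le {G : Type u} {H : Type v} [Group G] [Group H] {α : G →₀ ℂ} {β : H →₀ ℂ}
    (h : kerDim α ≤ kerDim β) (hβ : Regular β) : Regular α := by
  rw [regular_iff_kerDim] at hβ ⊢
  rw [hβ] at h
  exact le_antisymm h (kerDim_nonneg α)

/-- transport to a group that contains the image -/
theorem transport {C : Type u} {M : Type v} [Group C] [Group M] (f : M →* C)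
    (hf : Function.Injective f) (β : f.range →₀ ℂ) (hβ : β ≠ 0) :
    ∃ γ : M →₀ ℂ, γ ≠ 0 ∧ kerDim β ≤ kerDim γ := by
  have hinj : Function.Injective ((MonoidHom.ofInjective hf).symm : f.range →* M) :=
    (MonoidHom.ofInjective hf).symm.injective
  refine ⟨β.mapDomain ((MonoidHom.ofInjective hf).symm : f.range →* M), ?_, ?_⟩
  · intro h0
    apply hβ
    exact Finsupp.mapDomain_injective hinj (by rw [h0, Finsupp.mapDomain_zero])
  · rw [kerDim_eq, kerDim_eq]
    exact vd_kr_mapDomain_ge _ hinj β

open Monoid

/-- **Analytic zero divisors and actions on trees.**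

1. Let a group `G` (with or without torsion) act without inversions on a tree and by order
preserving maps on a totally ordered set `Ω`, and let `ω` be a point of `Ω` such that for all edges
only finitely many elements fix both ends of the edge and `ω`. (If `Ω` is a point, this says that
the edge stabilisers are finite.) Then for every `α ≠ 0` in the complex group algebra of `G` there
are a vertex `v` and `β ≠ 0` in the complex group algebra of the stabiliser of `v` and `ω` such that
the von Neumann dimension of the kernel of `α` on `ℓ²(G)` is at most that of the kernel of `β`. In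
particular, if the stabilisers of `v` and `ω`, for all vertices `v`, have the analytic zero divisor
property, so has `G`.

2. Let `G` be the free product of any family of groups `M i`. For every `α ≠ 0` in the complex group
algebra of `G` which is not regular there is an index `i` and `β ≠ 0` in the complex group algebra of
`M i` such that the kernel of `α` has at most the dimension of the kernel of `β`. In particular `G`
has the analytic zero divisor property if and only if all the groups `M i` have it.

3. Let `G` be the product of groups `M i` amalgamated over a common subgroup `H` and let `ψ` be a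
homomorphism from `G` to a left-ordered group such that the restriction of `ψ` to `H` has finite
kernel. For every `α ≠ 0` in the complex group algebra of `G` there is an index `i` and `β ≠ 0` in
the complex group algebra of `M i` such that the kernel of `α` has at most the dimension of the
kernel of `β`. In particular `G` has the analytic zero divisor property if all the groups `M i`
have it. -/
theorem result :
    (∀ (G : Type u) (V : Type v) (Ω : Type w) [Group G] [MulAction G V] [LinearOrder Ω]
      [MulAction G Ω] (T : SimpleGraph V) (ω : Ω), TreeAction G V T → OrderAction G Ω →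
      (∀ x y : V, T.Adj x y → {g : G | g • x = x ∧ g • y = y ∧ g • ω = ω}.Finite) →
      (∀ α : G →₀ ℂ, α ≠ 0 →
        ∃ v : V, ∃ β : (MulAction.stabilizer G v ⊓ MulAction.stabilizer G ω : Subgroup G) →₀ ℂ,
          β ≠ 0 ∧ kerDim α ≤ kerDim β) ∧
      ((∀ v : V, ZeroDivisorProperty
        (MulAction.stabilizer G v ⊓ MulAction.stabilizer G ω : Subgroup G)) →
        ZeroDivisorProperty G)) ∧
    (∀ (ι : Type v) (M : ι → Type w) [∀ i, Group (M i)],
      (∀ α : CoprodI M →₀ ℂ, α ≠ 0 → Regular α ∨
        ∃ i, ∃ β : M i →₀ ℂ, β ≠ 0 ∧ kerDim α ≤ kerDim β) ∧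
      (ZeroDivisorProperty (CoprodI M) ↔ ∀ i, ZeroDivisorProperty (M i))) ∧
    (∀ (ι : Type v) (M : ι → Type w) (H : Type x) (Q : Type u) [Nonempty ι] [∀ i, Group (M i)]
      [Group H] [Group Q] [LinearOrder Q] (φ : ∀ i, H →* M i) (ψ : PushoutI φ →* Q),
      (∀ i, Function.Injective (φ i)) → LeftInvariant Q →
      {h : H | ψ (PushoutI.base φ h) = 1}.Finite →
      (∀ α : PushoutI φ →₀ ℂ, α ≠ 0 →
        ∃ i, ∃ β : M i →₀ ℂ, β ≠ 0 ∧ kerDim α ≤ kerDim β) ∧
      ((∀ i, ZeroDivisorProperty (M i)) → ZeroDivisorProperty (PushoutI φ))) := by
  refine ⟨?_, ?_, ?_⟩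
  · intro G V Ω _ _ _ _ T ω hT hΩ hf
    have hT' : Pool.Agent.H61.AZ.TreeAction G V T := ⟨hT.isTree, hT.adj, hT.noInversion⟩
    have key : ∀ α : G →₀ ℂ, α ≠ 0 →
        ∃ v : V, ∃ β : (MulAction.stabilizer G v ⊓ MulAction.stabilizer G ω : Subgroup G) →₀ ℂ,
          β ≠ 0 ∧ kerDim α ≤ kerDim β := by
      intro α hα
      obtain ⟨v, β, h1, h2⟩ := main_order hT' hΩ ω hf α hα
      exact ⟨v, β, h1, by rw [kerDim_eq, kerDim_eq]; exact h2⟩
    refine ⟨key, fun h α hα => ?_⟩
    obtain ⟨v, β, h1, h2⟩ := key α hα
    exact regular_of_le h2 (h v β h1)
  · intro ι M _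
    have key : ∀ α : CoprodI M →₀ ℂ, α ≠ 0 → Regular α ∨
        ∃ i, ∃ β : M i →₀ ℂ, β ≠ 0 ∧ kerDim α ≤ kerDim β := by
      intro α hα
      by_cases hι : Nonempty ι
      · right
        obtain ⟨i, β, h1, h2⟩ := amalgam (Ω := Unit) (coprodI_isAmalgam (M := M))
          (fun g x y _ => le_rfl) () (fun p => by
            refine Set.Finite.subset (Set.finite_singleton (1 : CoprodI M)) ?_
            rintro b ⟨hb, _⟩
            exact Subgroup.mem_bot.1 hb) α hα
        obtain ⟨γ, h3, h4⟩ := transport (CoprodI.of : M i →* CoprodI M)
          (CoprodI.of_injective i) β h1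
        refine ⟨i, γ, h3, ?_⟩
        refine le_trans ?_ h4
        rw [kerDim_eq, kerDim_eq]; exact h2
      · left
        rw [not_nonempty_iff] at hι
        -- the free product is trivial
        have htriv : ∀ x : CoprodI M, x = 1 := by
          intro x
          induction x using CoprodI.induction_on with
          | one => rfl
          | of i m => exact (hι.false i).elim
          | mul x y hx hy => rw [hx, hy, one_mul]
        intro f _ hf0
        refine ⟨1, ?_⟩
        have h1 : α 1 ≠ 0 := by
          intro h0
          apply hα
          ext x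
          rw [htriv x, h0]; rfl
        have h2 : f 1 ≠ 0 := by
          intro h0
          apply hf0
          funext x
          rw [htriv x, h0]; rfl
        have h3 : α.support = {1} := by
          ext x
          rw [htriv x, Finsupp.mem_support_iff]
          simp [h1]
        rw [h3, Finset.sum_singleton, inv_one, one_mul]
        exact mul_ne_zero h1 h2
    refine ⟨key, fun h i β hβ => ?_, fun h α hα => ?_⟩
    · have h1 : β.mapDomain (CoprodI.of : M i →* CoprodI M) ≠ 0 := by
        intro h0
        apply hβ
        exact Finsupp.mapDomain_injective (CoprodI.of_injective i)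
          (by rw [h0, Finsupp.mapDomain_zero])
      refine regular_of_le ?_ (h _ h1)
      rw [kerDim_eq, kerDim_eq]
      exact vd_kr_mapDomain_ge _ (CoprodI.of_injective i) β
    · rcases key α hα with h1 | ⟨i, β, h1, h2⟩
      · exact h1
      · exact regular_of_le h2 (h i β h1)
  · intro ι M H Q _ _ _ _ _ φ ψ hφ hQ hfin
    have key : ∀ α : PushoutI φ →₀ ℂ, α ≠ 0 →
        ∃ i, ∃ β : M i →₀ ℂ, β ≠ 0 ∧ kerDim α ≤ kerDim β := by
      intro α hα
      let _ : MulAction (PushoutI φ) Q := MulAction.compHom Q ψ
      have hact : ∀ (p : PushoutI φ) (q : Q), p • q = ψ p * q := fun p q => rfl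
      obtain ⟨i, β, h1, h2⟩ := amalgam (Ω := Q) (pushoutI_isAmalgam hφ)
          (fun g x y hxy => by rw [hact, hact]; exact hQ _ _ _ hxy) (1 : Q) (fun p => by
            refine Set.Finite.subset (hfin.image (PushoutI.base φ)) ?_
            rintro b ⟨⟨y, rfl⟩, hb2⟩
            refine ⟨y, ?_, rfl⟩
            rw [hact, mul_one, map_mul, map_mul, map_inv] at hb2
            have h5 : ψ p * ψ (PushoutI.base φ y) = ψ p := by
              rw [mul_inv_eq_one] at hb2
              exact hb2
            exact mul_eq_left.1 h5) α hα
      obtain ⟨γ, h3, h4⟩ := transport (PushoutI.of i : M i →* PushoutI φ)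
          (PushoutI.of_injective hφ i) β h1
      refine ⟨i, γ, h3, ?_⟩
      refine le_trans ?_ h4
      rw [kerDim_eq, kerDim_eq]; exact h2
    refine ⟨key, fun h α hα => ?_⟩
    obtain ⟨i, β, h1, h2⟩ := key α hα
    exact regular_of_le h2 (h i β h1)

end Pool.Agent.Results.MP_0f25e6_al.TreeActions
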